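import Pool.Agent.Helper535.HN.Gd

/-!
# Radon compacta whose point-complements are normal

In ZFC: a compact Radon space is Fréchet–Urysohn (in particular sequential) as soon as `X \ {z}` is
normal for every point `z`; more generally as soon as no sequence of points different from `z`
converging to `z` is relatively pseudocompact in `X \ {z}`.
-/

set_option autoImplicit false

open Set Topology Filter

namespace Pool.Agent.Results.MP_c9188c_gt.HereditarilyNormal

universe u

/-- for every point `z` and every sequence of points `≠ z` converging to `z` there is a continuous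
real function on `X \ {z}` which is not bounded above on the sequence. -/
def UnboundedOnSequences (X : Type u) [TopologicalSpace X] : Prop :=
  ∀ (z : X) (a : ℕ → X) (ha : ∀ n, a n ∈ ({z}ᶜ : Set X)), Tendsto a atTop (𝓝 z) →
    ∃ f : ({z}ᶜ : Set X) → ℝ, Continuous f ∧ ∀ M : ℝ, ∃ n, M < f ⟨a n, ha n⟩

/-- every nonempty closed subset `K` of `X` has a point which is a `G_δ` point of `K` (this holds
for example if `X` is scattered). -/
def ClosedSetsHaveGdeltaPoints (X : Type u) [TopologicalSpace X] : Prop :=
  ∀ K : Set X, IsClosed K → K.Nonempty →
    ∃ p ∈ K, ∃ U : ℕ → Set X, (∀ n, IsOpen (U n)) ∧ K ∩ ⋂ n, U n = {p}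

/-- A compact Hausdorff space on which every finite Borel measure is inner regular with
respect to compact sets (a compact Radon space) is Fréchet–Urysohn (hence
sequential) if all its point-complements are normal, or if it satisfies `UnboundedOnSequences`;
and it is sequential if all its nonempty closed subsets have relative `G_δ` points. -/
theorem result (X : Type u) [TopologicalSpace X] [CompactSpace X] [T2Space X]
    [MeasurableSpace X] [BorelSpace X]
    (hR : ∀ μ : MeasureTheory.Measure X, MeasureTheory.IsFiniteMeasure μ → μ.InnerRegular) :
    (((∀ z : X, NormalSpace ({z}ᶜ : Set X)) ∨ UnboundedOnSequences X) →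
      FrechetUrysohnSpace X) ∧
    (ClosedSetsHaveGdeltaPoints X → SequentialSpace X) := by
  have hC : Pool.Helper535.HN.CClosed X := Pool.Helper535.HN.radonC hR
  refine ⟨fun h => ?_, fun h => Pool.Helper535.HN.seqGd hC h⟩
  have hU : Pool.Helper535.HN.UnbSeq X := by
    rcases h with h | h
    · exact Pool.Helper535.HN.unb_of_normal h
    · exact h
  exact Pool.Helper535.HN.frechetU hC hU

end Pool.Agent.Results.MP_c9188c_gt.HereditarilyNormal
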